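import Mathlib

/-!
# MP_9bce75_nt: a non-perfect integer equal to its number of proper-divisor subset sums

The number `492 = 4 * 3 * 41` is abundant, not perfect, and has exactly `492` distinct positive
subset sums of proper divisors.
-/

set_option autoImplicit false

namespace Pool.Agent.Results.MP_9bce75_nt.Disproof492

/-- The set of all sums of the elements of a non-empty set of proper divisors of `n`. -/
def subsetSums (n : ℕ) : Set ℕ :=
  {s | ∃ S : Finset ℕ, S ⊆ n.properDivisors ∧ S.Nonempty ∧ s = ∑ d ∈ S, d}

/-- `a n` is the number of distinct sums of non-empty sets of proper divisors of `n`. -/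
noncomputable def a (n : ℕ) : ℕ := (subsetSums n).ncard

lemma subsetSums_eq (n : ℕ) :
    subsetSums n = ((((n.properDivisors.powerset).erase ∅).image (fun S => ∑ d ∈ S, d) : Finset ℕ) : Set ℕ) := by
  ext s
  simp only [subsetSums, Set.mem_ofPred_eq, Finset.coe_image, Finset.coe_erase, Set.mem_image,
    Set.mem_sdiff, Finset.mem_coe, Finset.mem_powerset, Set.mem_singleton_iff]
  constructor
  · rintro ⟨S, h1, h2, h3⟩
    exact ⟨S, ⟨h1, h2.ne_empty⟩, h3.symm⟩
  · rintro ⟨S, ⟨h1, h2⟩, h3⟩
    exact ⟨S, h1, Finset.nonempty_iff_ne_empty.2 h2, h3.symm⟩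

/-- The possible values: `u + 41 v` with `u ≤ 28`, `v ≤ 16`. -/
lemma pd : Nat.properDivisors 492 = {1, 2, 3, 4, 6, 12, 41, 82, 123, 164, 246} := by decide +kernel

lemma image_eq : (((Nat.properDivisors 492).powerset).erase ∅).image (fun S => ∑ d ∈ S, d) =
    ((Finset.range 29 ×ˢ Finset.range 17).image (fun t => t.1 + 41 * t.2)).erase 0 := by
  have h1 : ∀ s ∈ (((Nat.properDivisors 492).powerset).erase ∅).image (fun S => ∑ d ∈ S, d),
      s ∈ ((Finset.range 29 ×ˢ Finset.range 17).image (fun t => t.1 + 41 * t.2)).erase 0 := by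
    rw [pd]
    intro s hs
    simp only [Finset.mem_image, Finset.mem_erase, Finset.mem_powerset] at hs
    obtain ⟨S, ⟨hne, hS⟩, rfl⟩ := hs
    have hsmall : ∑ d ∈ S.filter (fun d => d < 41), d ≤ 28 := by
      calc ∑ d ∈ S.filter (fun d => d < 41), d ≤ ∑ d ∈ ({1, 2, 3, 4, 6, 12} : Finset ℕ), d := by
            apply Finset.sum_le_sum_of_subset
            intro d hd
            rw [Finset.mem_filter] at hd
            have := hS hd.1
            simp only [Finset.mem_insert, Finset.mem_singleton] at this ⊢
            omega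
        _ = 28 := by decide
    have hbig : ∃ v ≤ 16, ∑ d ∈ S.filter (fun d => ¬ d < 41), d = 41 * v := by
      refine ⟨∑ d ∈ S.filter (fun d => ¬ d < 41), d / 41, ?_, ?_⟩
      · calc ∑ d ∈ S.filter (fun d => ¬ d < 41), d / 41
            ≤ ∑ d ∈ ({41, 82, 123, 164, 246} : Finset ℕ), d / 41 := by
              apply Finset.sum_le_sum_of_subset
              intro d hd
              rw [Finset.mem_filter] at hd
              have := hS hd.1
              simp only [Finset.mem_insert, Finset.mem_singleton] at this ⊢
              omega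
          _ = 16 := by decide
      · rw [Finset.mul_sum]
        apply Finset.sum_congr rfl
        intro d hd
        rw [Finset.mem_filter] at hd
        have := hS hd.1
        simp only [Finset.mem_insert, Finset.mem_singleton] at this
        omega
    obtain ⟨v, hv, hv'⟩ := hbig
    have hsplit := Finset.sum_filter_add_sum_filter_not S (fun d => d < 41) (fun d => d)
    rw [Finset.mem_erase, Finset.mem_image]
    constructor
    · obtain ⟨d, hd⟩ := Finset.nonempty_iff_ne_empty.2 hne
      have h0 : 0 < d := by
        have := hS hd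
        simp only [Finset.mem_insert, Finset.mem_singleton] at this
        omega
      have : d ≤ ∑ d ∈ S, d := Finset.single_le_sum (f := fun d => d) (fun _ _ => Nat.zero_le _) hd
      omega
    · refine ⟨(∑ d ∈ S.filter (fun d => d < 41), d, v), ?_, ?_⟩
      · simp only [Finset.mem_product, Finset.mem_range]
        omega
      · simp only
        omega
  have hlow : ∀ u < 29, ∃ A : Finset ℕ, A ⊆ {1, 2, 3, 4, 6, 12} ∧ ∑ d ∈ A, d = u := by
    have : ∀ u ∈ Finset.range 29, ∃ A ∈ ({1, 2, 3, 4, 6, 12} : Finset ℕ).powerset, ∑ d ∈ A, d = u := by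
      decide +kernel
    intro u hu
    obtain ⟨A, hA, h⟩ := this u (Finset.mem_range.2 hu)
    exact ⟨A, Finset.mem_powerset.1 hA, h⟩
  have hhigh : ∀ v < 17, ∃ B : Finset ℕ, B ⊆ {41, 82, 123, 164, 246} ∧ ∑ d ∈ B, d = 41 * v := by
    have : ∀ v ∈ Finset.range 17, ∃ B ∈ ({41, 82, 123, 164, 246} : Finset ℕ).powerset,
        ∑ d ∈ B, d = 41 * v := by
      decide +kernel
    intro v hv
    obtain ⟨B, hB, h⟩ := this v (Finset.mem_range.2 hv)
    exact ⟨B, Finset.mem_powerset.1 hB, h⟩
  apply Finset.Subset.antisymm h1
  intro s hs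
  rw [Finset.mem_erase, Finset.mem_image] at hs
  obtain ⟨hs0, ⟨u, v⟩, huv, rfl⟩ := hs
  simp only [Finset.mem_product, Finset.mem_range] at huv
  obtain ⟨A, hA, hAs⟩ := hlow u huv.1
  obtain ⟨B, hB, hBs⟩ := hhigh v huv.2
  have hdisj : Disjoint A B := by
    rw [Finset.disjoint_left]
    intro d hdA hdB
    have h1 := hA hdA
    have h2 := hB hdB
    simp only [Finset.mem_insert, Finset.mem_singleton] at h1 h2
    omega
  have hsum : ∑ d ∈ A ∪ B, d = u + 41 * v := by
    rw [Finset.sum_union hdisj, hAs, hBs]
  rw [Finset.mem_image]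
  refine ⟨A ∪ B, ?_, hsum⟩
  rw [Finset.mem_erase, Finset.mem_powerset, pd]
  constructor
  · intro h
    rw [h, Finset.sum_empty] at hsum
    exact hs0 hsum.symm
  · intro d hd
    rw [Finset.mem_union] at hd
    rcases hd with hd | hd
    · have := hA hd
      simp only [Finset.mem_insert, Finset.mem_singleton] at this ⊢
      omega
    · have := hB hd
      simp only [Finset.mem_insert, Finset.mem_singleton] at this ⊢
      omega

/-- **Disproof of Q1.** The positive integer `492` has exactly `492` distinct positive subset sums of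
proper divisors, and it is not perfect. So not every positive integer `n` with `a n = n` is an even
perfect number. -/
theorem result : ∃ n : ℕ, 0 < n ∧ a n = n ∧ ¬ Nat.Perfect n := by
  have hnp : ¬ Nat.Perfect 492 := by
    rintro ⟨h, -⟩
    rw [pd] at h
    revert h
    decide
  have ha : a 492 = 492 := by
    rw [a, subsetSums_eq, image_eq, Set.ncard_coe_finset, Finset.card_erase_of_mem, Finset.card_image_of_injOn]
    · simp
    · rintro ⟨u, v⟩ h ⟨u', v'⟩ h' he
      simp only [Finset.coe_product, Finset.coe_range, Set.mem_prod, Set.mem_Iio] at h h'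
      simp only at he
      have : u = u' ∧ v = v' := by omega
      rw [this.1, this.2]
    · rw [Finset.mem_image]
      exact ⟨(0, 0), by simp, by simp⟩
  exact ⟨492, by norm_num, ha, hnp⟩

end Pool.Agent.Results.MP_9bce75_nt.Disproof492
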